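import Pool.Agent.MP_ff3a4f_co.ln.Low

/-!
The positive-fraction Kirchberger theorem on the line: the exact set of admissible pairs `(ε, γ)`.
-/

set_option autoImplicit false

namespace Pool.Agent.Results.MP_ff3a4f_co.ExactLine

open Pool.Agent.MP_ff3a4f_co.Kirchberger Pool.Agent.MP_ff3a4f_co.Ln Filter Topology

/-- `γ` is an admissible value of `g ε` in dimension one. -/
def Works (ε γ : ℝ) : Prop :=
  ∀ (N : ℕ) (A B : Finset (EuclideanSpace ℝ (Fin 1))),
    Disjoint A B → A.card = N → B.card = N → GeneralPosition (A ∪ B) →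
    (1 - ε) * ((2 * N).choose 3 : ℝ) ≤ (goodSets A B).card →
    ∃ A' ⊆ A, ∃ B' ⊆ B, Separated A' B' ∧ (1 - γ) * N ≤ A'.card ∧ (1 - γ) * N ≤ B'.card

theorem result (ε γ : ℝ) (hγ : 0 ≤ γ) :
    Works ε γ ↔ 1 / 2 ≤ γ ∨ ε ≤ 3 / 2 * γ ^ 2 * (1 - γ) := by
  constructor
  · intro hW
    by_contra hc
    obtain ⟨h1, h2⟩ := not_or.1 hc
    have h1 := not_le.1 h1
    have h2 := not_le.1 h2
    have hε : 0 < ε := lt_of_le_of_lt (by have : 0 ≤ 1 - γ := by linarith
                                          positivity) h2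
    have t0 : Tendsto (fun N : ℕ => (N : ℝ)⁻¹) atTop (𝓝 0) := tendsto_inv_atTop_nhds_zero_nat
    have e1 : ∀ᶠ t in 𝓝 (0 : ℝ), 2 * (1 - γ) * (γ + t) ^ 2 < ε * (2 - 2 * t) ^ 3 / 6 :=
      ContinuousAt.eventually_lt (by fun_prop) (by fun_prop) (by norm_num; linarith)
    have e2 : ∀ᶠ t in 𝓝 (0 : ℝ), 2 * (γ + t) < 1 :=
      ContinuousAt.eventually_lt (by fun_prop) (by fun_prop) (by linarith)
    obtain ⟨N, a1, a2, a3⟩ := ((t0.eventually e1).and ((t0.eventually e2).and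
      (eventually_ge_atTop 1))).exists
    have hN : (1 : ℝ) ≤ N := by exact_mod_cast a3
    have i0 : (N : ℝ)⁻¹ * N = 1 := inv_mul_cancel₀ (by linarith)
    set K := ⌊γ * N⌋₊ + 1 with hK
    have k1 : γ * N < K := by rw [hK]; push_cast; exact Nat.lt_floor_add_one _
    have k2 : (K : ℝ) ≤ (γ + (N : ℝ)⁻¹) * N := by
      rw [hK, add_mul, i0]; push_cast; linarith [Nat.floor_le (by positivity : 0 ≤ γ * N)]
    have k3 : 2 * K ≤ N := by
      have : (2 * K : ℝ) ≤ N := by nlinarith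
      exact_mod_cast this
    obtain ⟨A, B, b1, b2, b3, b4, b5⟩ := low k3
    have b4' : ((2 * N).choose 3 : ℝ) ≤ (goodSets A B).card + 2 * K * (K * (N - K)) := by
      rw [← Nat.cast_sub (by omega : K ≤ N)]; exact_mod_cast b4
    have c1 : (2 * K * (K * (N - K)) : ℝ) ≤ 2 * (1 - γ) * (γ + (N : ℝ)⁻¹) ^ 2 * N ^ 3 := by
      have k4 : (K : ℝ) ≤ N := by exact_mod_cast (by omega : K ≤ N)
      calc (2 * K * (K * (N - K)) : ℝ) = 2 * K ^ 2 * (N - K) := by ring
        _ ≤ 2 * ((γ + (N : ℝ)⁻¹) * N) ^ 2 * ((1 - γ) * N) := by gcongr <;> linarith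
        _ = _ := by ring
    have c2 : ε * (2 - 2 * (N : ℝ)⁻¹) ^ 3 / 6 * N ^ 3 ≤ ε * ((2 * N).choose 3 : ℝ) := by
      have : (2 - 2 * (N : ℝ)⁻¹) * N = 2 * N - 2 := by rw [sub_mul, mul_assoc 2 _ (N : ℝ), i0]; ring
      rw [choose3, show ε * (2 - 2 * (N : ℝ)⁻¹) ^ 3 / 6 * N ^ 3 =
        ε * (((2 - 2 * (N : ℝ)⁻¹) * N) ^ 3 / 6) by ring, this]
      push_cast
      refine mul_le_mul_of_nonneg_left ?_ hε.le
      nlinarith [mul_nonneg (sub_nonneg.2 hN) (sub_nonneg.2 hN)]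
    have c3 := mul_le_mul_of_nonneg_right a1.le (by positivity : (0 : ℝ) ≤ N ^ 3)
    obtain ⟨A', d1, B', d2, d3, d4, d5⟩ := hW N A B b1 b2 b3 (gp _) (by linarith)
    rcases b5 A' d1 B' d2 d3 with l | l
    · have : (A'.card : ℝ) + K ≤ N := by exact_mod_cast l
      linarith
    · have : (B'.card : ℝ) + K ≤ N := by exact_mod_cast l
      linarith
  · intro h N A B h1 h2 h3 _ h5
    by_contra hc
    rcases Nat.eq_zero_or_pos N with rfl | hN
    · exact hc ⟨∅, by simp, ∅, by simp, sep_of_lt (by simp), by simp, by simp⟩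
    set K := ⌊γ * N⌋₊ + 1 with hK
    have k1 : γ * N < K := by rw [hK]; push_cast; exact Nat.lt_floor_add_one _
    have fl : ∀ m : ℕ, (m : ℝ) < (1 - γ) * N → m + K ≤ N := fun m l => by
      have l1 : (m : ℝ) + (⌊γ * N⌋₊ : ℝ) < N := by
        linarith [Nat.floor_le (by positivity : 0 ≤ γ * N)]
      have : m + ⌊γ * N⌋₊ < N := by exact_mod_cast l1
      omega
    obtain ⟨u1, u2⟩ := up (K := K) (by omega) hN h1 h2 h3 fun A' a B' b s => by
      by_contra l
      exact hc ⟨A', a, B', b, s, not_lt.1 fun m => l (.inl (fl _ m)),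
        not_lt.1 fun m => l (.inr (fl _ m))⟩
    have u1' : (2 * K : ℝ) ≤ N := by exact_mod_cast u1
    have u2' : ((goodSets A B).card : ℝ) + 2 * K * (K * (N - K)) ≤ (2 * N).choose 3 := by
      exact_mod_cast u2
    have hN' : (1 : ℝ) ≤ N := by exact_mod_cast hN
    have g1 : γ < 1 / 2 := by nlinarith
    have g2 := h.resolve_left (not_le.2 g1)
    have c1 : ((2 * N).choose 3 : ℝ) ≤ 4 / 3 * N ^ 3 := by
      rw [choose3]; push_cast; nlinarith
    have c2 : ε * ((2 * N).choose 3 : ℝ) ≤ 3 / 2 * γ ^ 2 * (1 - γ) * (4 / 3 * N ^ 3) :=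
      mul_le_mul g2 c1 (Nat.cast_nonneg _) (by have : 0 ≤ 1 - γ := by linarith
                                               positivity)
    have u0 : 0 ≤ γ * N := by positivity
    have c3 : 3 / 2 * γ ^ 2 * (1 - γ) * (4 / 3 * N ^ 3) = 2 * (γ * N) ^ 2 * (N - γ * N) := by ring
    generalize γ * N = u at k1 u0 c3
    have c4 : 0 < N * (K + u) - (K ^ 2 + K * u + u ^ 2) := by nlinarith
    nlinarith [mul_pos (sub_pos.2 k1) c4]

end Pool.Agent.Results.MP_ff3a4f_co.ExactLine
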