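import Pool.Agent.MP_ff3a4f_co.AD.All

/-!
The sharp constant in the positive-fraction Kirchberger theorem in every dimension: the optimal
`g` satisfies `g ε ∼ (2 ^ (d + 1) ε / ((d + 1) (d + 2))) ^ (1 / (d + 1))` as `ε → 0`.
-/

set_option autoImplicit false

namespace Pool.Agent.Results.MP_ff3a4f_co.SharpConstant

open Pool.Agent.MP_ff3a4f_co.Kirchberger

/-- `γ` is an admissible value of `g ε` in dimension `d`. -/
def Works (d : ℕ) (ε γ : ℝ) : Prop :=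
  ∀ (N : ℕ) (A B : Finset (EuclideanSpace ℝ (Fin d))),
    Disjoint A B → A.card = N → B.card = N → GeneralPosition (A ∪ B) →
    (1 - ε) * ((2 * N).choose (d + 2) : ℝ) ≤ (goodSets A B).card →
    ∃ A' ⊆ A, ∃ B' ⊆ B, Separated A' B' ∧ (1 - γ) * N ≤ A'.card ∧ (1 - γ) * N ≤ B'.card

theorem result (d : ℕ) (hd : 1 ≤ d) (η : ℝ) (hη : 0 < η) :
    ∃ ε₀ : ℝ, 0 < ε₀ ∧ ∀ ε : ℝ, 0 < ε → ε < ε₀ →
      Works d ε ((1 + η) * (2 ^ (d + 1) * ε / ((d + 1) * (d + 2))) ^ (1 / ((d : ℝ) + 1))) ∧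
        ¬ Works d ε ((1 - η) * (2 ^ (d + 1) * ε / ((d + 1) * (d + 2))) ^ (1 / ((d : ℝ) + 1))) :=
  Pool.Agent.MP_ff3a4f_co.AD.all d hd η hη

end Pool.Agent.Results.MP_ff3a4f_co.SharpConstant
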